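import Pool.Agent.Helper13.SqGap.Main

set_option autoImplicit false

/-!
# Almost every sequence `β L n` samples all gaps between primes
-/

open MeasureTheory Filter Topology

namespace Pool.Agent.Results.MP_3998cf_nt.MetricSampling

open Pool.Agent.Helper13.SqGap

/-- **Theorem.** Let `L n → ∞` with `√(L (n+1)) - √(L n)` bounded above (for example
`L n = n ^ 2`), and let `D = limsup (√p_{n+1} - √p_n) ∈ [0, ∞]`. For all `β > 0` outside a set
which is Lebesgue null and meagre, the cluster points of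
`√(next prime after β L n) - √(β L n)` are exactly the reals in `[0, D]`. Hence
`√p_{n+1} - √p_n → 0` iff the set of `β > 0` such that the next prime after `β L n` is
`β L n + o(√(β L n))` is not a null set, and iff it is not meagre. -/
theorem result (L : ℕ → ℝ) (hL : Tendsto L atTop atTop)
    (hC : ∃ C : ℝ, ∀ n, √(L (n + 1)) ≤ √(L n) + C) :
    (∀ᵐ β : ℝ, 0 < β → Full fun n => β * L n) ∧
    (∀ᶠ β : ℝ in residual ℝ, 0 < β → Full fun n => β * L n) ∧
    (Tendsto d atTop (𝓝 0) ↔ volume {β : ℝ | 0 < β ∧ Close fun n => β * L n} ≠ 0) ∧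
    (Tendsto d atTop (𝓝 0) ↔ ¬ IsMeagre {β : ℝ | 0 < β ∧ Close fun n => β * L n}) := by
  have hr := ratio_of_incr L hL hC
  refine ⟨metric L hL hC, generic_seq L hL hr, ⟨fun h => ?_, fun h => ?_⟩,
    ⟨fun h => ?_, fun h => ?_⟩⟩
  · have hsub : Set.Ioi (0:ℝ) ⊆ {β : ℝ | 0 < β ∧ Close fun n => β * L n} :=
      fun β hβ => ⟨hβ, close_of_q1 h (tendsto_mul_seq hL hβ)⟩
    intro h0
    have := measure_mono_null hsub h0
    simp at this
  · obtain ⟨β, ⟨hβ0, hcl⟩, hF⟩ := exists_of_ne_zero h (metric L hL hC)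
    exact q1_iff.mpr (D_zero_of (tendsto_mul_seq hL hβ0) (hF hβ0) hcl)
  · exact not_meagre_of (c := 0) fun β hβ => ⟨hβ, close_of_q1 h (tendsto_mul_seq hL hβ)⟩
  · obtain ⟨β, ⟨hβ0, hcl⟩, hF⟩ := exists_of_not_meagre h (generic_seq L hL hr)
    exact q1_iff.mpr (D_zero_of (tendsto_mul_seq hL hβ0) (hF hβ0) hcl)

end Pool.Agent.Results.MP_3998cf_nt.MetricSampling
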