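import Mathlib

set_option autoImplicit false

namespace Pool.Agent.Results.MP_0ec542_nt.TwinIndexDensity

open Filter

/-- `TwinIndex q`: `q` is prime and `p_{q+2} + 2` is prime, where `p_k` is the `k`-th prime
(`p_1 = 2`); note that `Nat.nth Nat.Prime (k - 1)` is `p_k`. -/
def TwinIndex (q : ℕ) : Prop := q.Prime ∧ (Nat.nth Nat.Prime (q + 1) + 2).Prime

/-- `Good n`: the assertion of Q1 holds at `n`, i.e. there is a prime `q` such that both
`2 n - q` and `p_{q+2} + 2` are prime. -/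
def Good (n : ℕ) : Prop := ∃ q r : ℕ, TwinIndex q ∧ r.Prime ∧ q + r = 2 * n

open Classical in
/-- combinatorial core -/
theorem core (L : Finset ℕ) (hL : ∀ ℓ ∈ L, ℓ.Prime ∧ ℓ ≠ 2) (a : ℕ → ℕ) (x : ℕ) :
    ((x / 2 / (∏ ℓ ∈ L, ℓ) : ℕ) : ℝ) ≤
      (Nat.primeCounting x : ℝ) *
        ((((Finset.Icc 1 x).filter
          (fun q => TwinIndex q ∧ ∀ ℓ ∈ L, ¬ q ≡ a ℓ [MOD ℓ])).card : ℝ) + L.card) + 2 +
      (((Finset.Icc 3 (x / 2)).filter (fun n => ¬ Good n)).card : ℝ) := by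
  set W := ∏ ℓ ∈ L, ℓ with hW
  set X := x / 2 with hX
  have hcop : Set.Pairwise (↑L : Set ℕ) (Function.onFun Nat.Coprime (id : ℕ → ℕ)) := by
    intro i hi j hj hij
    exact (Nat.coprime_primes (hL i hi).1 (hL j hj).1).2 hij
  have hWpos : 0 < W := Finset.prod_pos fun ℓ hℓ => (hL ℓ hℓ).1.pos
  obtain ⟨n0, hn0⟩ : ∃ n0 : ℕ, ∀ ℓ ∈ L, 2 * n0 ≡ a ℓ [MOD ℓ] := by
    obtain ⟨k, hk⟩ := Nat.chineseRemainderOfFinset (fun ℓ => a ℓ * ((ℓ + 1) / 2)) (id : ℕ → ℕ) L
      (fun i hi => (hL i hi).1.ne_zero) hcop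
    refine ⟨k, fun ℓ hℓ => ?_⟩
    have h1 := hk ℓ hℓ
    have hodd : Odd ℓ := (hL ℓ hℓ).1.odd_of_ne_two (hL ℓ hℓ).2
    obtain ⟨t, ht⟩ := hodd
    have h2 : (ℓ + 1) / 2 = t + 1 := by omega
    have h3 : 2 * k ≡ 2 * (a ℓ * ((ℓ + 1) / 2)) [MOD ℓ] := Nat.ModEq.mul_left 2 h1
    refine h3.trans ?_
    rw [h2]
    have h4 : 2 * (a ℓ * (t + 1)) = a ℓ + ℓ * a ℓ := by
      rw [ht]; ring
    rw [h4]
    have h5 : ℓ * a ℓ ≡ 0 [MOD ℓ] := (Nat.modEq_zero_iff_dvd).2 (Dvd.intro _ rfl)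
    have h6 := Nat.ModEq.add_left (a ℓ) h5
    rwa [add_zero] at h6
  -- the progression
  set A := (Finset.Ioc 0 X).filter (fun n => n ≡ n0 [MOD W]) with hA
  have hAcard : X / W ≤ A.card := by
    have := Nat.Ioc_filter_modEq_card 0 X hWpos n0
    have h2 : ((A.card : ℕ) : ℤ) = _ := this
    have h3 : ((X / W : ℕ) : ℤ) ≤ (A.card : ℤ) := by
      rw [h2]
      refine le_max_of_le_left ?_
      have e1 : (⌊((X : ℚ) - n0) / W⌋ : ℤ) = ((X : ℤ) - n0) / W := by
        have := Rat.floor_intCast_div_natCast ((X : ℤ) - n0) W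
        push_cast at this
        exact this
      have e2 : (⌊((0 : ℕ) - (n0 : ℚ)) / W⌋ : ℤ) = (0 - (n0 : ℤ)) / W := by
        have := Rat.floor_intCast_div_natCast ((0 : ℤ) - n0) W
        push_cast at this
        simpa using this
      rw [e1, e2]
      have hWz : (0 : ℤ) < W := by exact_mod_cast hWpos
      have key : (X : ℤ) / W + (0 - (n0 : ℤ)) / W ≤ ((X : ℤ) - n0) / W := by
        rw [Int.le_ediv_iff_mul_le hWz]
        have a1 := Int.ediv_mul_le (X : ℤ) hWz.ne'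
        have a2 := Int.ediv_mul_le (0 - (n0 : ℤ)) hWz.ne'
        nlinarith
      push_cast
      linarith
    exact_mod_cast h3
  -- everything in A is small, bad, or represented
  set Pr := Nat.primesLE x with hPr
  set Q' := (Finset.Icc 1 x).filter (fun q => TwinIndex q ∧ ∀ ℓ ∈ L, ¬ q ≡ a ℓ [MOD ℓ]) with hQ'
  have hsub : A ⊆ ((Q' ×ˢ Pr).image (fun p => (p.1 + p.2) / 2) ∪
      (L ×ˢ Pr).image (fun p => (p.1 + p.2) / 2)) ∪ (Finset.Icc 1 2 ∪
      (Finset.Icc 3 X).filter (fun n => ¬ Good n)) := by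
    intro n hn
    rw [hA, Finset.mem_filter, Finset.mem_Ioc] at hn
    obtain ⟨⟨hn1, hn2⟩, hn3⟩ := hn
    by_cases hsmall : n ≤ 2
    · refine Finset.mem_union_right _ (Finset.mem_union_left _ ?_)
      rw [Finset.mem_Icc]; omega
    by_cases hgood : Good n
    · refine Finset.mem_union_left _ ?_
      obtain ⟨q, r, hq, hr, hqr⟩ := hgood
      have hqx : q ≤ x := by omega
      have hrx : r ≤ x := by omega
      by_cases hres : ∀ ℓ ∈ L, ¬ q ≡ a ℓ [MOD ℓ]
      · refine Finset.mem_union_left _ ?_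
        rw [Finset.mem_image]
        refine ⟨(q, r), ?_, by simp only; omega⟩
        rw [Finset.mem_product]
        refine ⟨?_, ?_⟩
        · rw [hQ', Finset.mem_filter, Finset.mem_Icc]
          exact ⟨⟨hq.1.one_lt.le, hqx⟩, hq, hres⟩
        · rw [hPr, Nat.mem_primesLE]
          exact ⟨hrx, hr⟩
      · push Not at hres
        obtain ⟨ℓ, hℓ, hqℓ⟩ := hres
        refine Finset.mem_union_right _ ?_
        rw [Finset.mem_image]
        have h1 : 2 * n ≡ a ℓ [MOD ℓ] := by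
          have hd : ℓ ∣ W := Finset.dvd_prod_of_mem _ hℓ
          have h2 : n ≡ n0 [MOD ℓ] := hn3.of_dvd hd
          exact (Nat.ModEq.mul_left 2 h2).trans (hn0 ℓ hℓ)
        have h3 : q + r ≡ q + 0 [MOD ℓ] := by
          rw [hqr, add_zero]
          exact h1.trans hqℓ.symm
        have h4 : r ≡ 0 [MOD ℓ] := Nat.ModEq.add_left_cancel' q h3
        have h5 : ℓ ∣ r := (Nat.modEq_zero_iff_dvd).1 h4
        have h6 : ℓ = r := (Nat.prime_dvd_prime_iff_eq (hL ℓ hℓ).1 hr).1 h5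
        refine ⟨(ℓ, q), ?_, by simp only; omega⟩
        rw [Finset.mem_product]
        refine ⟨hℓ, ?_⟩
        rw [hPr, Nat.mem_primesLE]
        exact ⟨hqx, hq.1⟩
    · refine Finset.mem_union_right _ (Finset.mem_union_right _ ?_)
      rw [Finset.mem_filter, Finset.mem_Icc]
      exact ⟨⟨by omega, hn2⟩, hgood⟩
  have hcard := Finset.card_le_card hsub
  have hb : X / W ≤ Q'.card * Nat.primeCounting x + L.card * Nat.primeCounting x + (2 +
      ((Finset.Icc 3 X).filter (fun n => ¬ Good n)).card) := by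
    refine hAcard.trans (hcard.trans ?_)
    refine (Finset.card_union_le _ _).trans ?_
    refine add_le_add ((Finset.card_union_le _ _).trans (add_le_add ?_ ?_))
      ((Finset.card_union_le _ _).trans ?_)
    · refine Finset.card_image_le.trans ?_
      rw [Finset.card_product, hPr, Nat.primesLE_card_eq_primeCounting]
    · refine Finset.card_image_le.trans ?_
      rw [Finset.card_product, hPr, Nat.primesLE_card_eq_primeCounting]
    · simp
  have hb' : ((X / W : ℕ) : ℝ) ≤ (Q'.card : ℝ) * Nat.primeCounting x +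
      L.card * Nat.primeCounting x + (2 +
      (((Finset.Icc 3 X).filter (fun n => ¬ Good n)).card : ℝ)) := by exact_mod_cast hb
  linarith

open Classical in
/-- Unconditional lower bound for the number of counterexamples `n ≤ x` to the assertion of Q1,
uniform in the finite set `L` of odd primes and in the residue classes `a ℓ mod ℓ`. -/
theorem result : ∃ x₀ : ℕ, ∀ x : ℕ, x₀ ≤ x → ∀ L : Finset ℕ, (∀ ℓ ∈ L, ℓ.Prime ∧ ℓ ≠ 2) →
    ∀ a : ℕ → ℕ,
      (x : ℝ) * (1 / ((∏ ℓ ∈ L, ℓ : ℕ) : ℝ) -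
        3 * ((((Finset.Icc 1 (2 * x)).filter
          (fun q => TwinIndex q ∧ ∀ ℓ ∈ L, ¬ q ≡ a ℓ [MOD ℓ])).card : ℝ) + L.card + 1) /
            Real.log x) ≤
        (((Finset.Icc 3 x).filter (fun n => ¬ Good n)).card : ℝ) := by
  have h2x : Tendsto (fun x : ℕ => ((2 * x : ℕ) : ℝ)) atTop atTop :=
    tendsto_natCast_atTop_atTop.comp (tendsto_id.const_mul_atTop' (by norm_num))
  have hcheb := h2x.eventually (Chebyshev.eventually_primeCounting_le (ε := 0.1) (by norm_num))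
  have hlog : Tendsto (fun x : ℕ => Real.log x) atTop atTop :=
    Real.tendsto_log_atTop.comp tendsto_natCast_atTop_atTop
  have hlittle : ∀ᶠ x : ℕ in atTop, Real.log x ≤ 0.02 * x := by
    have h1 := Real.isLittleO_log_id_atTop.bound (c := 0.02) (by norm_num)
    have h2 := (tendsto_natCast_atTop_atTop (R := ℝ)).eventually h1
    filter_upwards [h2, hlog.eventually_ge_atTop 0] with x h3 h4
    have hx : (0 : ℝ) ≤ x := by positivity
    simp only [id] at h3
    rwa [Real.norm_of_nonneg h4, Real.norm_of_nonneg hx] at h3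
  obtain ⟨x₀, hx₀⟩ := eventually_atTop.1 (hcheb.and (hlittle.and
    ((hlog.eventually_ge_atTop 1).and (eventually_ge_atTop 3))))
  refine ⟨x₀, fun x hx L hL a => ?_⟩
  obtain ⟨h2, h4, h5, h6⟩ := hx₀ x hx
  have hcore := core L hL a (2 * x)
  rw [Nat.mul_div_cancel_left x (by norm_num)] at hcore
  set W := ∏ ℓ ∈ L, ℓ with hW
  set Q := (((Finset.Icc 1 (2 * x)).filter
    (fun q => TwinIndex q ∧ ∀ ℓ ∈ L, ¬ q ≡ a ℓ [MOD ℓ])).card : ℝ) with hQ
  set E := (((Finset.Icc 3 x).filter (fun n => ¬ Good n)).card : ℝ) with hE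
  have hWpos : 0 < W := Finset.prod_pos fun ℓ hℓ => (hL ℓ hℓ).1.pos
  have hWr : (1 : ℝ) ≤ W := by exact_mod_cast hWpos
  have hWr0 : (0 : ℝ) < W := by linarith
  have hxr : (3 : ℝ) ≤ x := by exact_mod_cast h6
  have hx0 : (0 : ℝ) < x := by linarith
  have hQ0 : (0 : ℝ) ≤ Q := by rw [hQ]; positivity
  have hL0 : (0 : ℝ) ≤ L.card := by positivity
  have hfl : (x : ℝ) / W - 1 ≤ ((x / W : ℕ) : ℝ) := by
    have := Nat.lt_div_mul_add (a := x) hWpos
    have h' : (x : ℝ) < ((x / W : ℕ) : ℝ) * W + W := by exact_mod_cast this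
    rw [div_sub_one hWr0.ne', div_le_iff₀ hWr0]
    linarith
  rw [Nat.floor_natCast] at h2
  have hlog4 : Real.log 4 < 1.3863 := by
    have : Real.log 4 = 2 * Real.log 2 := by
      rw [show (4 : ℝ) = 2 ^ 2 by norm_num, Real.log_pow]; norm_num
    rw [this]
    have := Real.log_two_lt_d9
    linarith
  have hlogpos : 0 < Real.log x := by linarith
  have hl : Real.log x ≤ Real.log ((2 * x : ℕ) : ℝ) :=
    Real.log_le_log hx0 (by push_cast; linarith)
  have h2' : (Nat.primeCounting (2 * x) : ℝ) ≤ 2.974 * (x / Real.log x) := by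
    refine h2.trans ?_
    have e1 : (Real.log 4 + 0.1) * ((2 * x : ℕ) : ℝ) ≤ 2.974 * x := by
      push_cast
      nlinarith
    calc (Real.log 4 + 0.1) * ((2 * x : ℕ) : ℝ) / Real.log ((2 * x : ℕ) : ℝ)
        ≤ 2.974 * x / Real.log x := by gcongr
      _ = _ := by ring
  -- combine
  have h7 : (x : ℝ) / W ≤ 2.974 * (x / Real.log x) * (Q + L.card) + 3 + E := by
    have : (Nat.primeCounting (2 * x) : ℝ) * (Q + L.card) ≤
        2.974 * (x / Real.log x) * (Q + L.card) := by gcongr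
    linarith
  have h8 : (3 : ℝ) ≤ 3 * (x / Real.log x) := by
    have : (1 : ℝ) ≤ x / Real.log x := by
      rw [le_div_iff₀ hlogpos]; linarith
    linarith
  have hu : (0 : ℝ) < x / Real.log x := by positivity
  have e2 : (x : ℝ) * (1 / (W : ℝ) - 3 * (Q + L.card + 1) / Real.log x) =
      x / W - 3 * (x / Real.log x) * (Q + L.card) - 3 * (x / Real.log x) := by
    field_simp
    ring
  rw [e2]
  nlinarith [mul_nonneg hu.le (add_nonneg hQ0 hL0)]

end Pool.Agent.Results.MP_0ec542_nt.TwinIndexDensity
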