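import Pool.Agent.VOID.MainB

/-!
# MP_3998cf_nt: a positive proportion of every short interval lies in long gaps

For all `lam`, `K` there is `c > 0` such that for all large `y` and all `x ≤ y ^ K` at least `c y`
integers `m ∈ (x, x + y]` lie in a gap `[p n, p (n + 1))` with
`√(p (n + 1)) - √(p n) ≥ lam log (p n) / √(p n)`.
-/

set_option autoImplicit false

namespace Pool.Agent.Results.MP_3998cf_nt.VoidProportion

open Finset Filter

/-- the primes `2, 3, 5, …`, indexed from `0` -/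
noncomputable def p (n : ℕ) : ℕ := Nat.nth Nat.Prime n

/-- `√p_{n+1} - √p_n` -/
noncomputable def d (n : ℕ) : ℝ := √(p (n + 1)) - √(p n)

open Classical in
/-- the number of integers `m` in `(x, x + y]` with `p n ≤ m < p (n + 1)` for some `n` such that
`d n ≥ lam * log (p n) / √(p n)` -/
noncomputable def inLongGaps (lam : ℝ) (x y : ℕ) : ℕ :=
  ((Ioc x (x + y)).filter (fun m => ∃ n, p n ≤ m ∧ m < p (n + 1) ∧
    lam * Real.log (p n) / √(p n) ≤ d n)).card

theorem exists_gap {m : ℕ} (hm : 2 ≤ m) : ∃ n, p n ≤ m ∧ m < p (n + 1) := by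
  have hinf := Nat.infinite_setOfPred_prime
  have h0 : Nat.count Nat.Prime (m + 1) ≠ 0 := by
    intro h
    have h1 : m + 1 ≤ Nat.nth Nat.Prime 0 := (Nat.count_le_iff_le_nth hinf).1 h.le
    have h2 : Nat.nth Nat.Prime 0 = 2 := Nat.nth_prime_zero_eq_two
    omega
  refine ⟨Nat.count Nat.Prime (m + 1) - 1, ?_, ?_⟩
  · have h1 : Nat.nth Nat.Prime (Nat.count Nat.Prime (m + 1) - 1) < m + 1 :=
      Nat.nth_lt_of_lt_count (by omega)
    unfold p
    omega
  · have h1 : m + 1 ≤ Nat.nth Nat.Prime (Nat.count Nat.Prime (m + 1)) :=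
      (Nat.count_le_iff_le_nth hinf).1 le_rfl
    have h2 : Nat.count Nat.Prime (m + 1) - 1 + 1 = Nat.count Nat.Prime (m + 1) := by omega
    unfold p
    rw [h2]
    omega

theorem p_le_two_mul (n : ℕ) : p (n + 1) ≤ 2 * p n := by
  have hinf := Nat.infinite_setOfPred_prime
  obtain ⟨q, hq, h1, h2⟩ := Nat.exists_prime_lt_and_le_two_mul (p n)
    (Nat.prime_nth_prime n).ne_zero
  have h3 : n + 1 ≤ Nat.count Nat.Prime q := by
    by_contra hcon
    have h4 : Nat.count Nat.Prime q ≤ n := by omega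
    have h5 : q ≤ Nat.nth Nat.Prime n := (Nat.count_le_iff_le_nth hinf).1 h4
    exact absurd h1 (not_lt.2 h5)
  have h4 : Nat.nth Nat.Prime (n + 1) ≤ Nat.nth Nat.Prime (Nat.count Nat.Prime q) :=
    Nat.nth_monotone hinf h3
  rw [Nat.nth_count hq] at h4
  exact h4.trans h2

theorem d_ge (n : ℕ) : ((p (n + 1) : ℝ) - p n) / (3 * √(p n)) ≤ d n := by
  have h0 : (0 : ℝ) < p n := by exact_mod_cast (Nat.prime_nth_prime n).pos
  have hs : 0 < √(p n : ℝ) := Real.sqrt_pos.2 h0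
  have h1 : (p (n + 1) : ℝ) ≤ 2 * p n := by exact_mod_cast p_le_two_mul n
  have h2 : √(p (n + 1) : ℝ) ≤ 2 * √(p n : ℝ) := by
    rw [show (2 : ℝ) * √(p n : ℝ) = √(2 ^ 2 * (p n : ℝ)) by
      rw [Real.sqrt_mul (by norm_num), Real.sqrt_sq (by norm_num)]]
    apply Real.sqrt_le_sqrt
    linarith
  have h3 : √(p n : ℝ) ≤ √(p (n + 1) : ℝ) := by
    apply Real.sqrt_le_sqrt
    exact_mod_cast (Nat.nth_strictMono Nat.infinite_setOfPred_prime (Nat.lt_succ_self n)).le
  have h4 : (p (n + 1) : ℝ) = √(p (n + 1) : ℝ) ^ 2 := (Real.sq_sqrt (Nat.cast_nonneg _)).symm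
  have h5 : (p n : ℝ) = √(p n : ℝ) ^ 2 := (Real.sq_sqrt h0.le).symm
  rw [div_le_iff₀ (by positivity)]
  unfold d
  have h6 : 0 ≤ (√(p (n + 1) : ℝ) - √(p n : ℝ)) * (2 * √(p n : ℝ) - √(p (n + 1) : ℝ)) :=
    mul_nonneg (by linarith) (by linarith)
  nlinarith

theorem result (lam : ℝ) (K : ℕ) : ∃ c : ℝ, 0 < c ∧ ∀ᶠ y : ℕ in atTop, ∀ x : ℕ, x ≤ y ^ K →
    c * y ≤ inLongGaps lam x y := by
  classical
  set N1 : ℕ := K + 1 with hN1
  set Λ : ℝ := 3 * |lam| * (N1 + 1) + 1 with hΛ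
  have hΛ0 : 0 < Λ := by positivity
  obtain ⟨c, hc, y0, h⟩ := VOID.mainV Λ hΛ0 1 1 N1 Nat.one_pos (by omega)
  refine ⟨c, hc, ?_⟩
  have e1 : ∀ᶠ y : ℕ in atTop, Λ * Real.log y ≤ y := by
    have h1 := (Real.isLittleO_log_id_atTop.comp_tendsto tendsto_natCast_atTop_atTop).bound
      (show (0 : ℝ) < 1 / Λ by positivity)
    filter_upwards [h1, eventually_ge_atTop 1] with y hy hy1
    simp only [Function.comp, id, Real.norm_eq_abs] at hy
    have h2 : 0 ≤ Real.log (y : ℝ) := Real.log_natCast_nonneg y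
    rw [abs_of_nonneg h2, abs_of_nonneg (Nat.cast_nonneg y)] at hy
    calc Λ * Real.log y ≤ Λ * (1 / Λ * y) := mul_le_mul_of_nonneg_left hy hΛ0.le
      _ = y := by field_simp
  have e2 : ∀ᶠ y : ℕ in atTop, 1 ≤ Λ * Real.log y := by
    have h1 := (Real.tendsto_log_atTop.comp tendsto_natCast_atTop_atTop).const_mul_atTop hΛ0
    exact h1.eventually (eventually_ge_atTop 1)
  filter_upwards [e1, e2, eventually_ge_atTop y0, eventually_ge_atTop 2] with y he1 he2 hy hy2 x hx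
  have hlog0 : 0 ≤ Real.log (y : ℝ) := Real.log_natCast_nonneg y
  set J : ℕ := ⌊Λ * Real.log y⌋₊ with hJ
  have hJle : (J : ℝ) ≤ Λ * Real.log y := Nat.floor_le (by positivity)
  have hJlt : Λ * Real.log y < (J : ℝ) + 1 := Nat.lt_floor_add_one _
  have hJ1 : 1 ≤ J := Nat.one_le_floor_iff _ |>.2 he2
  have hJy : J ≤ y := by exact_mod_cast hJle.trans he1
  have hyN : y ≤ y ^ N1 := Nat.le_self_pow (by omega) y
  have hxN : x ≤ y ^ N1 := hx.trans (Nat.pow_le_pow_right (by omega) (by omega))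
  set A : Finset ℤ := (Icc 1 J).image (fun j : ℕ => -(j : ℤ)) with hA
  have hAcard : (A.card : ℝ) ≤ Λ * Real.log y := by
    have h1 : A.card ≤ (Icc 1 J).card := card_image_le
    rw [Nat.card_Icc, Nat.add_sub_cancel] at h1
    exact le_trans (by exact_mod_cast h1) hJle
  have hmain := h y hy x 0 A hxN (by
    intro a ha
    rw [hA, mem_image] at ha
    obtain ⟨j, hj, rfl⟩ := ha
    rw [mem_Icc] at hj
    rw [abs_neg, abs_of_nonneg (Int.natCast_nonneg j)]
    have h1 : j ≤ y ^ N1 := (hj.2.trans hJy).trans hyN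
    exact_mod_cast h1) hAcard
  refine hmain.trans ?_
  unfold inLongGaps
  have hsub : (Ioc x (x + y)).filter (fun n => n ≡ 0 [MOD 1] ∧ ∀ a ∈ A, ∃ q : ℕ, q.Prime ∧
      q ^ 1 ≤ y ∧ (q : ℤ) ∣ (n : ℤ) - a ∧ (q : ℤ) < |(n : ℤ) - a|) ⊆
      (Ioc x (x + y)).filter (fun m => ∃ n, p n ≤ m ∧ m < p (n + 1) ∧
        lam * Real.log (p n) / √(p n) ≤ d n) := by
    intro m hm
    rw [mem_filter] at hm ⊢
    refine ⟨hm.1, ?_⟩
    have hcomp : ∀ j : ℕ, 1 ≤ j → j ≤ J → ¬ (m + j).Prime := by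
      intro j hj1 hj2 hprime
      obtain ⟨q, hq, -, hdvd, hlt⟩ := hm.2.2 (-(j : ℤ)) (by
        rw [hA, mem_image]
        exact ⟨j, mem_Icc.2 ⟨hj1, hj2⟩, rfl⟩)
      have e : (m : ℤ) - -(j : ℤ) = ((m + j : ℕ) : ℤ) := by push_cast; ring
      rw [e] at hdvd hlt
      rw [abs_of_nonneg (Int.natCast_nonneg _)] at hlt
      have h1 : q ∣ m + j := by exact_mod_cast hdvd
      have h2 : q = m + j := (Nat.prime_dvd_prime_iff_eq hq hprime).1 h1
      have h3 : q < m + j := by exact_mod_cast hlt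
      omega
    have hmx := mem_Ioc.1 hm.1
    have hm2 : 2 ≤ m := by
      by_contra hcon
      have h1 : m = 1 := by omega
      exact hcomp 1 le_rfl hJ1 (by rw [h1]; exact Nat.prime_two)
    obtain ⟨n, hn1, hn2⟩ := exists_gap hm2
    refine ⟨n, hn1, hn2, ?_⟩
    have hpn0 : (0 : ℝ) < p n := by exact_mod_cast (Nat.prime_nth_prime n).pos
    have hpn1 : (1 : ℝ) ≤ p n := by exact_mod_cast (Nat.prime_nth_prime n).one_lt.le
    have hgap : m + J + 1 ≤ p (n + 1) := by
      by_contra hcon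
      have h1 : p (n + 1) = m + (p (n + 1) - m) := by omega
      refine hcomp (p (n + 1) - m) (by omega) (by omega) ?_
      rw [← h1]
      exact Nat.prime_nth_prime (n + 1)
    have hgapr : Λ * Real.log y ≤ (p (n + 1) : ℝ) - p n := by
      have h1 : p n + J + 1 ≤ p (n + 1) := by omega
      have h2 : (p n : ℝ) + J + 1 ≤ p (n + 1) := by exact_mod_cast h1
      linarith
    refine le_trans ?_ (d_ge n)
    have hs : 0 < √(p n : ℝ) := Real.sqrt_pos.2 hpn0
    have hlogp : Real.log (p n) ≤ (N1 + 1) * Real.log y := by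
      have h1 : p n ≤ 2 * y ^ N1 := by omega
      have h2 : (p n : ℝ) ≤ (y : ℝ) ^ (N1 + 1) := by
        have h3 : 2 * y ^ N1 ≤ y ^ (N1 + 1) := by
          rw [pow_succ, mul_comm]
          exact Nat.mul_le_mul_left _ hy2
        exact_mod_cast h1.trans h3
      calc Real.log (p n) ≤ Real.log ((y : ℝ) ^ (N1 + 1)) := Real.log_le_log hpn0 h2
        _ = (N1 + 1) * Real.log y := by rw [Real.log_pow]; push_cast; ring
    rw [div_le_div_iff₀ hs (by positivity)]
    have hlogp0 : 0 ≤ Real.log (p n) := Real.log_nonneg hpn1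
    have h1 : lam * Real.log (p n) ≤ |lam| * ((N1 + 1) * Real.log y) :=
      (mul_le_mul_of_nonneg_right (le_abs_self lam) hlogp0).trans
        (mul_le_mul_of_nonneg_left hlogp (abs_nonneg lam))
    have h2 : 3 * (lam * Real.log (p n)) ≤ (p (n + 1) : ℝ) - p n := by
      refine le_trans ?_ hgapr
      rw [hΛ]
      nlinarith
    calc lam * Real.log (p n) * (3 * √(p n : ℝ)) = (3 * (lam * Real.log (p n))) * √(p n : ℝ) := by
          ring
      _ ≤ ((p (n + 1) : ℝ) - p n) * √(p n : ℝ) := mul_le_mul_of_nonneg_right h2 hs.le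
  exact_mod_cast card_le_card hsub

end Pool.Agent.Results.MP_3998cf_nt.VoidProportion
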